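import Pool.Agent.helper53.ORE.Spec

/-! Row ATV: products of transvections. -/

set_option autoImplicit false

namespace Pool.Agent.ORE

open Module Pool.Agent.GS

open scoped BigOperators

theorem ATV_snoc {F V : Type} [Field F] [AddCommGroup V] [Module F V]
    {Q : QuadraticForm F V} (h2 : (2 : F) = 0) {m : ℕ} {b : Fin (m + 1) → V} (h : Oq Q b) :
    fq Q b = fq Q (fun i : Fin m => b i.castSucc) * rq Q (b (Fin.last m)) := by
  have h' : Oq Q (fun i : Fin m => b i.castSucc) := h.comp (Fin.castSucc_injective m)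
  have h0 : Q (b (Fin.last m)) ≠ 0 := by rw [h.n]; exact one_ne_zero
  ext x
  rw [Equiv.Perm.mul_apply, fq_apply h2 h, fq_apply h2 h', rq_apply h2 h0, h.n, div_one,
    Fin.sum_univ_castSucc]
  have e : ∀ i : Fin m, pb Q (x + pb Q x (b (Fin.last m)) • b (Fin.last m)) (b i.castSucc) =
      pb Q x (b i.castSucc) := by
    intro i
    rw [map_add, LinearMap.add_apply, map_smul, LinearMap.smul_apply, h.oo h2, smul_zero, add_zero]
  simp only [e]
  abel

theorem ATV_fq {F V : Type} [Field F] [AddCommGroup V] [Module F V]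
    {Q : QuadraticForm F V} (h2 : (2 : F) = 0) (y : Equiv.Perm V)
    (hy : ∀ b : V, Q b ≠ 0 → Gq Q y 1 (rq Q b)) (m : ℕ) (b : Fin m → V) (h : Oq Q b) :
    Gq Q y m (fq Q b) := by
  induction m with
  | zero =>
    have : fq Q b = 1 := by
      ext x
      rw [fq_apply h2 h]
      simp
    rw [this]
    exact Gq.one 0
  | succ m ih =>
    have h0 : Q (b (Fin.last m)) ≠ 0 := by rw [h.n]; exact one_ne_zero
    rw [ATV_snoc h2 h]
    exact Gq.mul (ih _ (h.comp (Fin.castSucc_injective m))) (hy _ h0) (fq_mem Q _).1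

theorem ATV (ath : ATH_stmt) : ATV_stmt := by
  intro F V K _ _ _ _ _ _ _ _ Q h2 k hk σ j hj r hr hr2 hkr y hy
  obtain ⟨a, ha, _, hmem, hns⟩ := ath Q h2 k hk σ j hj r hr hr2 hkr
  refine ⟨_, hmem, ?_, hns⟩
  rw [fq_conj h2 hk ha, two_mul]
  exact Gq.mul (ATV_fq h2 y hy _ _ (ha.mem hk)) (ATV_fq h2 y hy _ _ ha) (fq_mem Q _).1

end Pool.Agent.ORE
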